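import Pool.Agent.J4H59.PG.Comb

/-!
# Normal extensions of hulls
-/

set_option autoImplicit false
set_option linter.unusedSectionVars false

open scoped Classical Pointwise

namespace Pool.Agent.J4H59.PG

open Pool.Agent.Helper386.PD3 Pool.Agent.J4H59.PD Pool.Agent.J4H59.PE Pool.Agent.J4H59.PF

noncomputable section

variable {G : Type} [Group G] {ι : Type} [Finite ι] {N : Subgroup G} {A : ι → Subgroup G}

/-- The commensurator of a factor has finite index modulo the hull. -/
theorem index_sup (htf : ∀ (x : G) (k : ℤ), k ≠ 0 → x ^ k = 1 → x = 1) (hfp : FPd N A)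
    (hAfg : ∀ i, (A i).FG)
    (hA : ∀ i, Nonempty (A i ≃* Multiplicative ℤ) ∨ AllDer (G := A i) (RR (A i)))
    {i : ι} (hi : A i ≠ ⊥) (hone : AllDer (G := A i) (RR (A i)))
    {L M : Subgroup G} (hul : Hul N L) (hLM : L ≤ M) (hM : M ≤ Subgroup.normalizer (L : Set G)) :
    (L ⊔ (Subgroup.Commensurable.commensurator (A i) ⊓ M)).relIndex M ≠ 0 := by
  choose n hn j hj using fun m : M => comm_of htf hfp hAfg hA hi hone hul (hM m.2)
  set T := L ⊔ (Subgroup.Commensurable.commensurator (A i) ⊓ M) with hT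
  have hNM : N ≤ M := hul.1.trans hLM
  have key : ∀ m m' : M, j m = j m' → (m : G)⁻¹ * m' ∈ T := by
    intro m m' h
    have h1 : Subgroup.Commensurable (cc ((m : G)⁻¹ * n m) (A (j m))) (A i) := hj m
    have h2 : Subgroup.Commensurable (cc ((m' : G)⁻¹ * n m') (A (j m))) (A i) := by
      rw [h]
      exact hj m'
    set x := (m : G)⁻¹ * n m with hx
    set x' := (m' : G)⁻¹ * n m' with hx'
    have h3 : x * x'⁻¹ ∈ Subgroup.Commensurable.commensurator (A i) := by
      rw [mem_comm]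
      have h4 : Subgroup.Commensurable (cc (x * x'⁻¹) (A i)) (cc (x * x'⁻¹) (cc x' (A (j m)))) :=
        cc_comm h2.symm
      rw [← cc_mul, inv_mul_cancel_right] at h4
      exact h4.trans h1
    have h4 : x * x'⁻¹ ∈ M := M.mul_mem (M.mul_mem (M.inv_mem m.2) (hNM (hn m)))
      (M.inv_mem (M.mul_mem (M.inv_mem m'.2) (hNM (hn m'))))
    have h5 : (m : G)⁻¹ * m' = ((m : G)⁻¹ * (n m * (n m')⁻¹)⁻¹ * (m : G)⁻¹⁻¹) * (x * x'⁻¹) := by
      rw [hx, hx']
      group
    rw [h5]
    refine T.mul_mem (Subgroup.mem_sup_left ?_) (Subgroup.mem_sup_right ⟨h3, h4⟩)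
    refine (Subgroup.mem_normalizer_iff.1 (Subgroup.inv_mem _ (hM m.2)) _).1 ?_
    exact L.inv_mem (L.mul_mem (hul.1 (hn m)) (L.inv_mem (hul.1 (hn m'))))
  have hfin : Finite (M ⧸ T.subgroupOf M) := by
    refine Finite.of_injective (fun q : M ⧸ T.subgroupOf M => j (Quotient.out q)) ?_
    intro q q' hqq
    rw [← Quotient.out_eq' q, ← Quotient.out_eq' q']
    change (QuotientGroup.mk (Quotient.out q : M) : M ⧸ T.subgroupOf M) =
      QuotientGroup.mk (Quotient.out q' : M)
    rw [QuotientGroup.eq, Subgroup.mem_subgroupOf]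
    exact key _ _ hqq
  exact Subgroup.index_ne_zero_of_finite (H := T.subgroupOf M)

/-- Finite generation modulo a normal subgroup. -/
theorem exists_fin {L M J : Subgroup G} (hLM : L ≤ M) (hM : M ≤ Subgroup.normalizer (L : Set G))
    (hJM : J ≤ M) {F : Finset G} (hF : M = L ⊔ Subgroup.closure (F : Set G))
    (hfin : (L ⊔ J).relIndex M ≠ 0) :
    ∃ F' : Finset G, (F' : Set G) ⊆ J ∧ J ≤ L ⊔ Subgroup.closure (F' : Set G) := by
  have hnorm : (L.subgroupOf M).Normal := ⟨fun n hn g => by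
    rw [Subgroup.mem_subgroupOf] at hn ⊢
    exact (Subgroup.mem_normalizer_iff.1 (hM g.2) _).1 hn⟩
  let Q := M ⧸ L.subgroupOf M
  let π : M →* Q := QuotientGroup.mk' (L.subgroupOf M)
  have hker : ∀ x : M, π x = 1 ↔ (x : G) ∈ L := by
    intro x
    change QuotientGroup.mk' (L.subgroupOf M) x = 1 ↔ _
    rw [QuotientGroup.mk'_apply, QuotientGroup.eq_one_iff, Subgroup.mem_subgroupOf]
  have hFM : ∀ x ∈ F, x ∈ M := fun x hx => by
    rw [hF]
    exact Subgroup.mem_sup_right (Subgroup.subset_closure hx)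
  have hQfg : Group.FG Q := by
    refine Group.fg_def.2 ⟨F.attach.image fun x => π ⟨x.1, hFM x.1 x.2⟩, ?_⟩
    rw [eq_top_iff]
    set T : Subgroup Q := Subgroup.closure ((F.attach.image fun x => π ⟨x.1, hFM x.1 x.2⟩ :
      Finset Q) : Set Q) with hT
    have h1 : M ≤ (T.comap π).map M.subtype := by
      conv_lhs => rw [hF]
      refine sup_le ?_ ?_
      · intro u hu
        refine ⟨⟨u, hLM hu⟩, ?_, rfl⟩
        change π ⟨u, hLM hu⟩ ∈ T
        rw [(hker ⟨u, hLM hu⟩).2 hu]
        exact T.one_mem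
      · rw [Subgroup.closure_le]
        intro x hx
        refine ⟨⟨x, hFM x hx⟩, ?_, rfl⟩
        change π ⟨x, hFM x hx⟩ ∈ T
        apply Subgroup.subset_closure
        rw [Finset.mem_coe, Finset.mem_image]
        exact ⟨⟨x, hx⟩, Finset.mem_attach _ _, rfl⟩
    intro q _
    obtain ⟨h, rfl⟩ := QuotientGroup.mk'_surjective (L.subgroupOf M) q
    obtain ⟨h', h2, h3⟩ := h1 h.2
    have h4 : h' = h := Subtype.ext h3
    rw [h4] at h2
    exact h2
  let Jb : Subgroup Q := (J.subgroupOf M).map π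
  have hJb : Jb.index ≠ 0 := by
    have h1 : ((L ⊔ J).subgroupOf M).map π = Jb := by
      rw [Subgroup.subgroupOf_sup hLM hJM, Subgroup.map_sup]
      have h2 : (L.subgroupOf M).map π = ⊥ := by
        rw [eq_bot_iff]
        rintro _ ⟨x, hx, rfl⟩
        rw [Subgroup.mem_bot]
        exact (hker x).2 hx
      rw [h2, bot_sup_eq]
    rw [← h1]
    intro h3
    apply hfin
    have h4 := Subgroup.index_map_dvd (H := (L ⊔ J).subgroupOf M)
      (QuotientGroup.mk'_surjective (L.subgroupOf M))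
    have h5 : (((L ⊔ J).subgroupOf M).map (QuotientGroup.mk' (L.subgroupOf M))).index = 0 := h3
    rw [h5] at h4
    exact Nat.eq_zero_of_zero_dvd h4
  have hfi : Jb.FiniteIndex := ⟨hJb⟩
  have hJfg : Group.FG Jb := inferInstance
  obtain ⟨E, hE⟩ := (Group.fg_iff_subgroup_fg Jb).1 hJfg
  have hlift : ∀ e : Q, ∃ x : M, e ∈ E → (x : G) ∈ J ∧ π x = e := by
    intro e
    by_cases he : e ∈ E
    · have h1 : e ∈ Jb := by
        rw [← hE]
        exact Subgroup.subset_closure he
      obtain ⟨x, hx, hxe⟩ := h1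
      exact ⟨x, fun _ => ⟨hx, hxe⟩⟩
    · exact ⟨1, fun h => absurd h he⟩
  choose x hx using hlift
  refine ⟨E.image fun e => (x e : G), ?_, fun y hy => ?_⟩
  · intro y hy
    rw [Finset.coe_image] at hy
    obtain ⟨e, he, rfl⟩ := hy
    exact (hx e he).1
  · have h1 : π ⟨y, hJM hy⟩ ∈ Jb := ⟨⟨y, hJM hy⟩, hy, rfl⟩
    rw [← hE] at h1
    have h2 : Subgroup.closure (E : Set Q) ≤
        ((Subgroup.closure ((E.image fun e => (x e : G) : Finset G) : Set G)).subgroupOf M).map π := by
      rw [Subgroup.closure_le]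
      intro e he
      refine ⟨x e, ?_, (hx e he).2⟩
      rw [SetLike.mem_coe, Subgroup.mem_subgroupOf]
      apply Subgroup.subset_closure
      rw [Finset.mem_coe, Finset.mem_image]
      exact ⟨e, he, rfl⟩
    obtain ⟨z, hz, hz'⟩ := h2 h1
    have h3 : π (⟨y, hJM hy⟩ * z⁻¹) = 1 := by
      rw [map_mul, map_inv, hz', mul_inv_cancel]
    have h4 : y * (z : G)⁻¹ ∈ L := (hker _).1 h3
    have h5 : y = (y * (z : G)⁻¹) * z := by group
    rw [h5]
    exact Subgroup.mul_mem _ (Subgroup.mem_sup_left h4) (Subgroup.mem_sup_right hz)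

/-- indices in products -/
theorem relIndex_sup_norm {L J : Subgroup G} (hJ : J ≤ Subgroup.normalizer (L : Set G)) :
    L.relIndex (L ⊔ J) = L.relIndex J := by
  set M := L ⊔ J with hM
  have hMn : M ≤ Subgroup.normalizer (L : Set G) := sup_le Subgroup.le_normalizer hJ
  have hnorm : (L.subgroupOf M).Normal := ⟨fun n hn g => by
    rw [Subgroup.mem_subgroupOf] at hn ⊢
    exact (Subgroup.mem_normalizer_iff.1 (hMn g.2) _).1 hn⟩
  have h1 := Subgroup.relIndex_sup_right (J.subgroupOf M) (L.subgroupOf M)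
  have hLM : L ≤ M := le_sup_left
  have hJM : J ≤ M := le_sup_right
  rw [← Subgroup.subgroupOf_sup hJM hLM, sup_comm, ← hM, Subgroup.relIndex_subgroupOf le_rfl,
    Subgroup.relIndex_subgroupOf hJM] at h1
  exact h1

end

end Pool.Agent.J4H59.PG
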