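import Pool.Agent.J4H59.PF.Asc
import Pool.Agent.J4H59.PG.Comb2

/-!
# Ascending series starting from free products
-/

set_option autoImplicit false
set_option linter.unusedSectionVars false

open scoped Classical Pointwise

namespace Pool.Agent.J4H59.PG

open Pool.Agent.Helper386.PD3 Pool.Agent.J4H59.PD Pool.Agent.J4H59.PE Pool.Agent.J4H59.PF
open Pool.Agent.Helper158

noncomputable section

variable {G : Type} [Group G] {ι : Type}

/-- the free product in the group `N` -/
theorem fpd_of [Fintype ι] (htf : ∀ (x : G) (k : ℤ), k ≠ 0 → x ^ k = 1 → x = 1) {N : Subgroup G}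
    {A : ι → Subgroup G} (hle : ∀ i, A i ≤ N) (hfree : IsFree fun i => (A i).subgroupOf N) :
    FPd N A := by
  have htf' : ∀ (x : N) (k : ℤ), k ≠ 0 → x ^ k = 1 → x = 1 := by
    intro x k hk hx
    apply Subtype.ext
    exact htf x k hk (congrArg Subtype.val hx)
  refine ⟨hle, ?_, ?_⟩
  · intro g b i j hg hb hbi hbj
    have h1 := malnormal hfree htf' (g := ⟨g, hg⟩) (b := ⟨b, hle i hbi⟩) (i := i) (j := j)
      (fun h => hb (congrArg Subtype.val h)) hbi hbj
    exact ⟨h1.1, h1.2⟩
  · intro C _ hfg hone hC ψ hψ hψN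
    let ψ' : C →* N := ψ.codRestrict N hψN
    have hψ' : Function.Injective ψ' := by
      intro a b h
      exact hψ (congrArg Subtype.val h)
    obtain ⟨g, l, h⟩ := conj_factor hfree htf' hfg hone hC ψ' hψ'
    exact ⟨g, g.2, l, fun c => h c⟩

variable {N : Subgroup G} {A : ι → Subgroup G}

/-- a factor of finite index is everything -/
theorem le_of_relIndex (htf : ∀ (x : G) (k : ℤ), k ≠ 0 → x ^ k = 1 → x = 1) (hfp : FPd N A)
    {i : ι} (hi : A i ≠ ⊥) (h : (A i).relIndex N ≠ 0) : N ≤ A i := by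
  intro n hn
  refine comm_inf htf hfp hi hn ?_
  have h1 : N.relIndex (A i) ≠ 0 := by
    rw [Subgroup.relIndex_eq_one.2 (hfp.le i)]
    exact one_ne_zero
  have h2 : Subgroup.Commensurable (A i) N := ⟨h, h1⟩
  have h3 : Subgroup.Commensurable (cc n (A i)) (cc n N) := cc_comm h2
  have h4 : cc n N = N := by
    ext z
    rw [mem_cc]
    constructor
    · intro h
      have h2 : z = n * (n⁻¹ * z * n) * n⁻¹ := by group
      rw [h2]
      exact N.mul_mem (N.mul_mem hn h) (N.inv_mem hn)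
    · intro h
      exact N.mul_mem (N.mul_mem (N.inv_mem hn) h) hn
  rw [h4] at h3
  rw [mem_comm]
  exact h3.trans h2.symm

/-- An infinite extension of a hull of a free product. -/
theorem le_factor [Finite ι] {n : ℕ} {w : G →* ℤˣ} {e0 e1 e2 e3 d0 d1 d2 : MR G n}
    (h : Full w e0 e1 e2 e3 d0 d1 d2) (hfgG : Group.FG G) (hG : AllDer (G := G) (RR G))
    (htf : ∀ (x : G) (k : ℤ), k ≠ 0 → x ^ k = 1 → x = 1) (hfp : FPd N A) (hAfg : ∀ i, (A i).FG)
    (hA : ∀ i, Nonempty (A i ≃* Multiplicative ℤ) ∨ AllDer (G := A i) (RR (A i)))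
    {i : ι} (hi : A i ≠ ⊥) (hone : AllDer (G := A i) (RR (A i)))
    {L M : Subgroup G} (hul : Hul N L) (hLM : L ≤ M) (hM : M ≤ Subgroup.normalizer (L : Set G))
    {F : Finset G} (hF : M = L ⊔ Subgroup.closure (F : Set G)) (hinf : L.relIndex M = 0) :
    N ≤ A i := by
  set J := Subgroup.Commensurable.commensurator (A i) ⊓ M with hJ
  set K := Subgroup.Commensurable.commensurator (A i) ⊓ L with hK
  have hulK : Hul (A i) K := hul_comm htf hfp hi hul
  have hJM : J ≤ M := inf_le_right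
  have hKJ : K ≤ J := le_inf inf_le_left (inf_le_right.trans hLM)
  have hJK : J ≤ Subgroup.normalizer (K : Set G) := by
    intro g hg
    rw [Subgroup.mem_normalizer_iff]
    intro x
    have h1 := Subgroup.mem_normalizer_iff.1 (hM hg.2) x
    constructor
    · intro hx
      exact ⟨Subgroup.mul_mem _ (Subgroup.mul_mem _ hg.1 hx.1) (Subgroup.inv_mem _ hg.1),
        h1.1 hx.2⟩
    · intro hx
      refine ⟨?_, h1.2 hx.2⟩
      have h2 : x = g⁻¹ * (g * x * g⁻¹) * g := by group
      rw [h2]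
      exact Subgroup.mul_mem _ (Subgroup.mul_mem _ (Subgroup.inv_mem _ hg.1) hx.1) hg.1
  have hidx : (L ⊔ J).relIndex M ≠ 0 := index_sup htf hfp hAfg hA hi hone hul hLM hM
  obtain ⟨F', hF'J, hF'⟩ := exists_fin hLM hM hJM hF hidx
  set J' := K ⊔ Subgroup.closure (F' : Set G) with hJ'
  have hJ'J : J' ≤ J := sup_le hKJ ((Subgroup.closure_le _).2 hF'J)
  have hinf' : K.relIndex J' = 0 := by
    by_contra hcon
    have h1 : L ⊓ J' = K := by
      apply le_antisymm
      · rintro x ⟨hx, hx'⟩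
        exact ⟨(hJ'J hx').1, hx⟩
      · exact le_inf inf_le_right le_sup_left
    have h2 : L.relIndex (L ⊔ J') ≠ 0 := by
      rw [relIndex_sup_norm ((hJ'J.trans hJM).trans hM), ← Subgroup.inf_relIndex_right, h1]
      exact hcon
    have h3 : L ⊔ J ≤ L ⊔ J' := by
      refine sup_le le_sup_left (hF'.trans (sup_le_sup_left ?_ _))
      exact le_sup_right
    have h4 : L.relIndex (L ⊔ J) ≠ 0 := mt (Subgroup.relIndex_eq_zero_of_le_right h3) h2
    have h5 := Subgroup.relIndex_mul_relIndex L (L ⊔ J) M le_sup_left (sup_le hLM hJM)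
    rw [hinf] at h5
    rcases mul_eq_zero.1 h5 with h6 | h6
    · exact h4 h6
    · exact hidx h6
  have hJ'K : J' ≤ Subgroup.normalizer (K : Set G) := hJ'J.trans hJK
  have hinfi : Infinite (A i) := inf_of_ne_bot htf hi
  by_cases htor : ∀ h ∈ J', ∃ n : ℕ, 0 < n ∧ h ^ n ∈ K
  · exact (tor_case h hfgG hG htf (hAfg i) hinfi hone hulK le_sup_left hJ'K rfl hinf' htor).elim
  · push Not at htor
    obtain ⟨t, htJ, ht⟩ := htor
    have htn : t ∈ Subgroup.normalizer (K : Set G) := hJ'K htJ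
    have ht' := pow_int ht
    obtain ⟨-, hrel⟩ := t_case h hfgG hG htf (hAfg i) hinfi hone hulK htn ht'
    obtain ⟨m, hm, hm'⟩ := exists_pow_norm (hAfg i) hulK.1 hrel htn
    have hs : ∀ k : ℤ, k ≠ 0 → (t ^ m) ^ k ∉ K := by
      intro k hk hkK
      refine ht' (m * k) (mul_ne_zero (by exact_mod_cast hm.ne') hk) ?_
      rw [zpow_mul, zpow_natCast]
      exact hkK
    have hidx2 := index_ne_zero_t h hfgG hG htf (hAfg i) hinfi hone hm'
      fun k hk hkA => hs k hk (hulK.1 hkA)
    refine le_of_relIndex htf hfp hi ?_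
    have h1 : (A i ⊔ Subgroup.zpowers (t ^ m)).relIndex N ≠ 0 := by
      rw [← Subgroup.relIndex_top_right] at hidx2
      exact mt (Subgroup.relIndex_eq_zero_of_le_right le_top) hidx2
    rw [← Subgroup.inf_relIndex_right] at h1
    refine mt (Subgroup.relIndex_eq_zero_of_le_left ?_) h1
    rintro x ⟨hx, hxN⟩
    obtain ⟨l, hl⟩ := exists_isLev hm' hx
    have hl' : x * (t ^ m) ^ (-l) ∈ A i := hl
    have h2 : (t ^ m) ^ (-l) ∈ K := by
      refine ⟨?_, ?_⟩
      · exact Subgroup.zpow_mem _ (Subgroup.pow_mem _ (hJ'J htJ).1 m) _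
      · have h3 : (t ^ m) ^ (-l) = x⁻¹ * (x * (t ^ m) ^ (-l)) := by group
        rw [h3]
        exact L.mul_mem (L.inv_mem (hul.1 hxN)) (hul.1 (hfp.le i hl'))
    by_cases hl0 : -l = 0
    · rw [hl0, zpow_zero, mul_one] at hl'
      exact hl'
    · exact absurd h2 (hs _ hl0)

theorem hul_all [Finite ι] {n : ℕ} {w : G →* ℤˣ} {e0 e1 e2 e3 d0 d1 d2 : MR G n}
    (h : Full w e0 e1 e2 e3 d0 d1 d2) (hfgG : Group.FG G) (hG : AllDer (G := G) (RR G))
    (htf : ∀ (x : G) (k : ℤ), k ≠ 0 → x ^ k = 1 → x = 1) (hNfg : N.FG) (hfp : FPd N A)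
    (hAfg : ∀ i, (A i).FG)
    (hA : ∀ i, Nonempty (A i ≃* Multiplicative ℤ) ∨ AllDer (G := A i) (RR (A i)))
    {i : ι} (hi : A i ≠ ⊥) (hone : AllDer (G := A i) (RR (A i))) (hN : ¬ N ≤ A i)
    {L : Subgroup G} (hasc : Asc N L) : Hul N L := by
  induction hasc with
  | refl => exact hul_refl N
  | step K L _ hKL hLK ih =>
    refine ⟨ih.1.trans hKL, fun F hFL hF => hN ?_⟩
    have hML : K ⊔ Subgroup.closure (F : Set G) ≤ L := sup_le hKL ((Subgroup.closure_le _).2 hFL)
    refine le_factor h hfgG hG htf hfp hAfg hA hi hone ih (M := K ⊔ Subgroup.closure (F : Set G))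
      le_sup_left (hML.trans hLK) rfl ?_
    by_contra hcon
    exact ih.ext_fin hNfg hcon hF
  | fin K L _ hKL hLK ih =>
    refine ⟨ih.1.trans hKL, fun F hF => ih.ext_fin hNfg ?_⟩
    exact mt (Subgroup.relIndex_eq_zero_of_le_right
      (sup_le hKL ((Subgroup.closure_le _).2 hF))) hLK
  | union c hne hc _ ih => exact hul_sSup hne hc ih

variable {P : ℕ → Type} [∀ i, AddCommGroup (P i)]
  [∀ i, Module (MonoidAlgebra ℤ G) (P i)] {d : ∀ i, P (i + 1) →ₗ[MonoidAlgebra ℤ G] P i}
  {ε : P 0 →+ ℤ}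

theorem main_free (hR : Reso P d ε) (m : ℕ) (hm : ∀ i, m < i → Subsingleton (P i))
    [∀ i, Module.Finite (MonoidAlgebra ℤ G) (P i)]
    [∀ i, Module.Projective (MonoidAlgebra ℤ G) (P i)]
    (hcoh : ∀ i, i ≠ 3 → Subsingleton (groupCohomology (Rep.leftRegular ℤ G) i))
    (htop : Nonempty (groupCohomology (Rep.leftRegular ℤ G) 3 ≃+ ℤ))
    (N : Subgroup G) (ι : Type) [Finite ι] (A : ι → Subgroup G)
    (hinj : Function.Injective (Monoid.CoprodI.lift fun i => (A i).subtype))
    (hrange : (Monoid.CoprodI.lift fun i => (A i).subtype).range = N)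
    (hAfg : ∀ i, (A i).FG)
    (hA : ∀ i, Nonempty (A i ≃* Multiplicative ℤ) ∨
      Subsingleton (groupCohomology (Rep.leftRegular ℤ (A i)) 1))
    (i : ι) (hi : A i ≠ ⊥) (hone : Subsingleton (groupCohomology (Rep.leftRegular ℤ (A i)) 1))
    (H : Subgroup G) (hH : H ≠ ⊤ → H.FG) (hasc : Asc N H) (hinf : N.relIndex H = 0) :
    A i = N ∧ ∃ t ∈ H, t ∈ Subgroup.normalizer (N : Set G) ∧ (∀ k : ℤ, k ≠ 0 → t ^ k ∉ N) ∧
      (N ⊔ Subgroup.zpowers t).FiniteIndex := by
  have hF : Fintype ι := Fintype.ofFinite ι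
  have hle : ∀ i, A i ≤ N := by
    intro i a ha
    rw [← hrange]
    exact ⟨Monoid.CoprodI.of (M := fun i => A i) (i := i) ⟨a, ha⟩,
      Monoid.CoprodI.lift_of (fi := fun i => (A i).subtype) _⟩
  have hsup : N = ⨆ i, A i := by
    rw [← hrange, Monoid.CoprodI.range_eq_iSup]
    exact iSup_congr fun i => Subgroup.range_subtype _
  have hNfg : N.FG := by
    rw [hsup]
    exact Subgroup.FG.iSup _ hAfg
  have hfree : IsFree fun i => (A i).subgroupOf N := by
    refine ⟨fun i => A i, fun i => inferInstance, fun i => Subgroup.inclusion (hle i), fun i => ?_,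
      ?_, ?_⟩
    · ext x
      rw [Subgroup.mem_subgroupOf]
      constructor
      · rintro ⟨a, rfl⟩
        exact a.2
      · intro hx
        exact ⟨⟨x, hx⟩, rfl⟩
    · have h1 : N.subtype.comp (Monoid.CoprodI.lift fun i => Subgroup.inclusion (hle i)) =
          Monoid.CoprodI.lift fun i => (A i).subtype := by
        refine Monoid.CoprodI.ext_hom _ _ fun i => ?_
        refine MonoidHom.ext fun a => ?_
        change ((Monoid.CoprodI.lift (fun i => Subgroup.inclusion (hle i)) (Monoid.CoprodI.of a) : N) : G) =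
          Monoid.CoprodI.lift (fun i => (A i).subtype) (Monoid.CoprodI.of a)
        rw [Monoid.CoprodI.lift_of, Monoid.CoprodI.lift_of]
        rfl
      intro x y hxy
      apply hinj
      rw [← h1]
      change ((Monoid.CoprodI.lift (fun i => Subgroup.inclusion (hle i)) x : N) : G) =
        ((Monoid.CoprodI.lift (fun i => Subgroup.inclusion (hle i)) y : N) : G)
      rw [hxy]
    · have h1 : N.subtype.comp (Monoid.CoprodI.lift fun i => Subgroup.inclusion (hle i)) =
          Monoid.CoprodI.lift fun i => (A i).subtype := by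
        refine Monoid.CoprodI.ext_hom _ _ fun i => ?_
        refine MonoidHom.ext fun a => ?_
        change ((Monoid.CoprodI.lift (fun i => Subgroup.inclusion (hle i)) (Monoid.CoprodI.of a) : N) : G) =
          Monoid.CoprodI.lift (fun i => (A i).subtype) (Monoid.CoprodI.of a)
        rw [Monoid.CoprodI.lift_of, Monoid.CoprodI.lift_of]
        rfl
      intro x
      have h2 : (x : G) ∈ (Monoid.CoprodI.lift fun i => (A i).subtype).range := by
        rw [hrange]
        exact x.2
      obtain ⟨v, hv⟩ := h2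
      refine ⟨v, Subtype.ext ?_⟩
      rw [← hv, ← h1]
      rfl
  obtain ⟨w, n, e0, e1, e2, e3, d0, d1, d2, hFull⟩ := exists_full hR m hm hcoh htop
  have htf := tf_int hR m hm
  have hfp : FPd N A := fpd_of htf hle hfree
  have hA' : ∀ i, Nonempty (A i ≃* Multiplicative ℤ) ∨ AllDer (G := A i) (RR (A i)) := fun i =>
    (hA i).imp_right allDer_RR
  have hH' : H.FG := by
    by_cases h : H = ⊤
    · rw [h]
      exact (Group.fg_def.1 (fg_of_reso hR m hm hcoh htop))
    · exact hH h
  have hNA : A i = N := by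
    by_contra hne
    have hN : ¬ N ≤ A i := fun h => hne (le_antisymm (hle i) h)
    have hul := hul_all hFull (fg_of_low hFull.low) (allDer_RR (hcoh 1 (by norm_num))) htf hNfg hfp
      hAfg hA' hi (allDer_RR hone) hN hasc
    exact hul.fg hH' le_rfl hul.1 hinf
  refine ⟨hNA, ?_⟩
  subst hNA
  exact main_asc hR m hm hcoh htop (A i) (hAfg i) hi hone H hH hasc hinf

end

end Pool.Agent.J4H59.PG
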