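import Pool.Agent.J4H59.PG.Fi
import Pool.Agent.J4H59.PF.Conj
import Mathlib.GroupTheory.Commensurable

/-!
# Conjugates of the factors of a free product
-/

set_option autoImplicit false
set_option linter.unusedSectionVars false

open scoped Classical Pointwise

namespace Pool.Agent.J4H59.PG

open Pool.Agent.Helper386.PD3 Pool.Agent.J4H59.PD Pool.Agent.J4H59.PE Pool.Agent.J4H59.PF

noncomputable section

variable {G : Type} [Group G]

/-- the conjugate of a subgroup -/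
def cc (x : G) (B : Subgroup G) : Subgroup G := ConjAct.toConjAct x • B

theorem mem_cc {x y : G} {B : Subgroup G} : y ∈ cc x B ↔ x⁻¹ * y * x ∈ B := by
  unfold cc
  rw [Subgroup.mem_pointwise_smul_iff_inv_smul_mem, ← map_inv, ConjAct.smul_def,
    ConjAct.ofConjAct_toConjAct, inv_inv]

theorem cc_mul (x y : G) (B : Subgroup G) : cc (x * y) B = cc x (cc y B) := by
  ext z
  rw [mem_cc, mem_cc, mem_cc]
  have h1 : (x * y)⁻¹ * z * (x * y) = y⁻¹ * (x⁻¹ * z * x) * y := by group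
  rw [h1]

theorem cc_comm {x : G} {B C : Subgroup G} (h : Subgroup.Commensurable B C) :
    Subgroup.Commensurable (cc x B) (cc x C) := h.conj _

theorem mem_comm {x : G} {B : Subgroup G} :
    x ∈ Subgroup.Commensurable.commensurator B ↔ Subgroup.Commensurable (cc x B) B := Iff.rfl

/-- the elements of `B` conjugated into `N` by `s` -/
def At (N B : Subgroup G) (s : G) : Subgroup B where
  carrier := {b | s * (b : G) * s⁻¹ ∈ N}
  one_mem' := by
    change s * ((1 : B) : G) * s⁻¹ ∈ N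
    rw [Subgroup.coe_one, mul_one, mul_inv_cancel]
    exact N.one_mem
  mul_mem' {a b} ha hb := by
    change s * ((a * b : B) : G) * s⁻¹ ∈ N
    have h1 : s * ((a * b : B) : G) * s⁻¹ = (s * (a : G) * s⁻¹) * (s * (b : G) * s⁻¹) := by
      rw [Subgroup.coe_mul]
      group
    rw [h1]
    exact N.mul_mem ha hb
  inv_mem' {a} ha := by
    change s * ((a⁻¹ : B) : G) * s⁻¹ ∈ N
    have h1 : s * ((a⁻¹ : B) : G) * s⁻¹ = (s * (a : G) * s⁻¹)⁻¹ := by
      rw [Subgroup.coe_inv]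
      group
    rw [h1]
    exact N.inv_mem ha

theorem mem_At {N B : Subgroup G} {s : G} {b : B} : b ∈ At N B s ↔ s * (b : G) * s⁻¹ ∈ N := Iff.rfl

theorem at_index {N L B : Subgroup G} (hul : Hul N L) (hB : B.FG) {s : G}
    (hs : ∀ b ∈ B, s * b * s⁻¹ ∈ L) : (At N B s).index ≠ 0 := by
  let c : G →* G := (MulAut.conj s).toMonoidHom
  have h1 : At N B s = (N.comap c).subgroupOf B := by
    ext n
    rw [Subgroup.mem_subgroupOf, Subgroup.mem_comap]
    rfl
  have h2 : (At N B s).index = N.relIndex (B.map c) := by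
    rw [h1, ← Subgroup.relIndex_comap]
    rfl
  rw [h2]
  obtain ⟨F, hF⟩ := hB
  have h3 : B.map c = Subgroup.closure ((F.image c : Finset G) : Set G) := by
    conv_lhs => rw [← hF]
    rw [MonoidHom.map_closure, Finset.coe_image]
  have h4 := hul.2 (F.image c) (by
    intro y hy
    rw [Finset.coe_image] at hy
    obtain ⟨x, hx, rfl⟩ := hy
    exact hs x (by rw [← hF]; exact Subgroup.subset_closure hx))
  rw [← h3] at h4
  exact mt (Subgroup.relIndex_eq_zero_of_le_right le_sup_right) h4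

/-- The properties of free products which are used. -/
structure FPd {ι : Type} (N : Subgroup G) (A : ι → Subgroup G) : Prop where
  le : ∀ i, A i ≤ N
  mal : ∀ {g b : G} {i j : ι}, g ∈ N → b ≠ 1 → b ∈ A i → g⁻¹ * b * g ∈ A j → i = j ∧ g ∈ A i
  conj : ∀ {C : Type} [Group C], Group.FG C → AllDer (G := C) (RR C) → (∃ c : C, c ≠ 1) →
    ∀ ψ : C →* G, Function.Injective ψ → (∀ c, ψ c ∈ N) →
      ∃ g ∈ N, ∃ l : ι, ∀ c, g⁻¹ * ψ c * g ∈ A l

variable {ι : Type} {N : Subgroup G} {A : ι → Subgroup G}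

/-- powers in subgroups of finite index -/
theorem exists_ne_pow (htf : ∀ (x : G) (k : ℤ), k ≠ 0 → x ^ k = 1 → x = 1) {B C : Subgroup G}
    (h : C.relIndex B ≠ 0) {b : G} (hb : b ∈ B) (hb1 : b ≠ 1) :
    ∃ e : ℕ, b ^ e ∈ C ∧ b ^ e ≠ 1 := by
  obtain ⟨e, he, -, he'⟩ := Subgroup.exists_pow_mem_of_relIndex_ne_zero h hb
  refine ⟨e, he'.1, fun h1 => hb1 (htf b e (by exact_mod_cast he.ne') ?_)⟩
  rw [zpow_natCast]
  exact h1

/-- elements of `N` commensurating a factor are in the factor -/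
theorem comm_inf (htf : ∀ (x : G) (k : ℤ), k ≠ 0 → x ^ k = 1 → x = 1) (hfp : FPd N A) {i : ι}
    (hi : A i ≠ ⊥) {n : G} (hn : n ∈ N)
    (hn' : n ∈ Subgroup.Commensurable.commensurator (A i)) : n ∈ A i := by
  obtain ⟨⟨b, hb⟩, hb1⟩ := Subgroup.ne_bot_iff_exists_ne_one.1 hi
  have hb1 : b ≠ 1 := fun h => hb1 (Subtype.ext h)
  have h1 : (cc n (A i)).relIndex (A i) ≠ 0 := (mem_comm.1 hn').1
  obtain ⟨e, he, he1⟩ := exists_ne_pow htf h1 hb hb1
  rw [mem_cc] at he
  exact (hfp.mal hn he1 ((A i).pow_mem hb e) he).2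

/-- the hull of a factor -/
theorem hul_comm (htf : ∀ (x : G) (k : ℤ), k ≠ 0 → x ^ k = 1 → x = 1) (hfp : FPd N A) {i : ι}
    (hi : A i ≠ ⊥) {L : Subgroup G} (hul : Hul N L) :
    Hul (A i) (Subgroup.Commensurable.commensurator (A i) ⊓ L) := by
  have hle : A i ≤ Subgroup.Commensurable.commensurator (A i) ⊓ L := by
    refine le_inf (fun a ha => ?_) ((hfp.le i).trans hul.1)
    rw [mem_comm]
    have h1 : cc a (A i) = A i := by
      ext z
      rw [mem_cc]
      constructor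
      · intro h
        have h2 : z = a * (a⁻¹ * z * a) * a⁻¹ := by group
        rw [h2]
        exact (A i).mul_mem ((A i).mul_mem ha h) ((A i).inv_mem ha)
      · intro h
        exact (A i).mul_mem ((A i).mul_mem ((A i).inv_mem ha) h) ha
    rw [h1]
  refine ⟨hle, fun F hF => ?_⟩
  set Q := A i ⊔ Subgroup.closure (F : Set G) with hQ
  have hQle : Q ≤ Subgroup.Commensurable.commensurator (A i) ⊓ L :=
    sup_le hle ((Subgroup.closure_le _).2 hF)
  have h1 : N.relIndex (N ⊔ Subgroup.closure (F : Set G)) ≠ 0 :=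
    hul.2 F fun x hx => (hF hx).2
  have h2 : N.relIndex Q ≠ 0 :=
    mt (Subgroup.relIndex_eq_zero_of_le_right (sup_le_sup_right (hfp.le i) _)) h1
  rw [← Subgroup.inf_relIndex_right] at h2
  have h3 : N ⊓ Q ≤ A i := fun n hn => comm_inf htf hfp hi hn.1 (hQle hn.2).1
  exact mt (Subgroup.relIndex_eq_zero_of_le_left h3) h2

/-- conjugates of a factor with one end are commensurable to conjugates of factors -/
theorem exists_factor (htf : ∀ (x : G) (k : ℤ), k ≠ 0 → x ^ k = 1 → x = 1) (hfp : FPd N A)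
    (hAfg : ∀ i, (A i).FG) {i : ι} (hi : A i ≠ ⊥) (hone : AllDer (G := A i) (RR (A i)))
    {L : Subgroup G} (hul : Hul N L) {m : G} (hm : m ∈ Subgroup.normalizer (L : Set G)) :
    ∃ n ∈ N, ∃ j : ι, (∀ a ∈ A i, m * a * m⁻¹ ∈ N → n⁻¹ * (m * a * m⁻¹) * n ∈ A j) ∧
      ¬ Nonempty (A j ≃* Multiplicative ℤ) := by
  have hfin : (At N (A i) m).index ≠ 0 := at_index hul (hAfg i) fun b hb =>
    (Subgroup.mem_normalizer_iff.1 hm b).1 (hul.1 (hfp.le i hb))
  have hfi : (At N (A i) m).FiniteIndex := ⟨hfin⟩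
  have hAfg' : Group.FG (A i) := (Group.fg_iff_subgroup_fg _).2 (hAfg i)
  have hCfg : Group.FG (At N (A i) m) := inferInstance
  have hCone : AllDer (G := At N (A i) m) (RR (At N (A i) m)) := allDer_fi hone _ hfin
  have hC1 : ∃ c : At N (A i) m, c ≠ 1 := by
    obtain ⟨⟨b, hb⟩, hb1⟩ := Subgroup.ne_bot_iff_exists_ne_one.1 hi
    have hb1 : b ≠ 1 := fun h => hb1 (Subtype.ext h)
    obtain ⟨e, he, -, he'⟩ := Subgroup.exists_pow_mem_of_index_ne_zero hfin (⟨b, hb⟩ : A i)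
    refine ⟨⟨_, he'⟩, fun h1 => hb1 (htf b e (by exact_mod_cast he.ne') ?_)⟩
    have h2 := congrArg (fun x : At N (A i) m => ((x : A i) : G)) h1
    rw [zpow_natCast]
    exact h2
  let ψ : At N (A i) m →* G := (MulAut.conj m).toMonoidHom.comp
    ((A i).subtype.comp (At N (A i) m).subtype)
  have hψ : ∀ c, ψ c = m * ((c : A i) : G) * m⁻¹ := fun c => rfl
  have hψi : Function.Injective ψ := by
    intro c c' h
    exact Subtype.ext (Subtype.ext ((MulAut.conj m).injective h))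
  obtain ⟨n, hn, j, hj⟩ := hfp.conj hCfg hCone hC1 ψ hψi fun c => c.2
  refine ⟨n, hn, j, fun a ha hma => ?_, ?_⟩
  · exact hj ⟨⟨a, ha⟩, hma⟩
  · rintro ⟨e⟩
    let θ : At N (A i) m →* A j :=
      { toFun := fun c => ⟨n⁻¹ * ψ c * n, hj c⟩
        map_one' := Subtype.ext (by
          change n⁻¹ * ψ 1 * n = 1
          rw [map_one, mul_one, inv_mul_cancel])
        map_mul' := fun c c' => Subtype.ext (by
          change n⁻¹ * ψ (c * c') * n = (n⁻¹ * ψ c * n) * (n⁻¹ * ψ c' * n)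
          rw [map_mul]
          group) }
    refine not_cyc hCone ?_ hC1 (e.toMonoidHom.comp θ) ?_
    · intro x k hk hx
      apply Subtype.ext
      apply Subtype.ext
      refine htf _ k hk ?_
      exact congrArg (fun x : At N (A i) m => ((x : A i) : G)) hx
    · intro c c' h
      have h1 : θ c = θ c' := e.injective h
      have h2 : n⁻¹ * ψ c * n = n⁻¹ * ψ c' * n := congrArg Subtype.val h1
      exact hψi (mul_left_cancel (mul_right_cancel h2))

theorem comm_of (htf : ∀ (x : G) (k : ℤ), k ≠ 0 → x ^ k = 1 → x = 1) (hfp : FPd N A)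
    (hAfg : ∀ i, (A i).FG)
    (hA : ∀ i, Nonempty (A i ≃* Multiplicative ℤ) ∨ AllDer (G := A i) (RR (A i)))
    {i : ι} (hi : A i ≠ ⊥) (hone : AllDer (G := A i) (RR (A i)))
    {L : Subgroup G} (hul : Hul N L) {m : G} (hm : m ∈ Subgroup.normalizer (L : Set G)) :
    ∃ n ∈ N, ∃ j : ι, Subgroup.Commensurable (cc (m⁻¹ * n) (A j)) (A i) := by
  obtain ⟨n, hn, j, hj, hcyc⟩ := exists_factor htf hfp hAfg hi hone hul hm
  have hNn : N ≤ Subgroup.normalizer (L : Set G) := hul.1.trans Subgroup.le_normalizer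
  have hm' : m⁻¹ * n ∈ Subgroup.normalizer (L : Set G) :=
    Subgroup.mul_mem _ (Subgroup.inv_mem _ hm) (hNn hn)
  have hfin : (At N (A i) m).index ≠ 0 := at_index hul (hAfg i) fun b hb =>
    (Subgroup.mem_normalizer_iff.1 hm b).1 (hul.1 (hfp.le i hb))
  -- a nontrivial element
  obtain ⟨a, haA, ha1, haN⟩ : ∃ a ∈ A i, a ≠ 1 ∧ m * a * m⁻¹ ∈ N := by
    obtain ⟨⟨b, hb⟩, hb1⟩ := Subgroup.ne_bot_iff_exists_ne_one.1 hi
    have hb1 : b ≠ 1 := fun h => hb1 (Subtype.ext h)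
    obtain ⟨e, he, -, he'⟩ := Subgroup.exists_pow_mem_of_index_ne_zero hfin (⟨b, hb⟩ : A i)
    refine ⟨b ^ e, (A i).pow_mem hb e, fun h1 => hb1 (htf b e (by exact_mod_cast he.ne') ?_), he'⟩
    rw [zpow_natCast]
    exact h1
  have hconj1 : ∀ x : G, (m⁻¹ * n)⁻¹ * x * (m⁻¹ * n) = n⁻¹ * (m * x * m⁻¹) * n := by
    intro x
    group
  have haj : (m⁻¹ * n)⁻¹ * a * (m⁻¹ * n) ∈ A j := by
    rw [hconj1]
    exact hj a haA haN
  have haj1 : (m⁻¹ * n)⁻¹ * a * (m⁻¹ * n) ≠ 1 := by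
    intro h
    apply ha1
    have h1 : a = (m⁻¹ * n) * ((m⁻¹ * n)⁻¹ * a * (m⁻¹ * n)) * (m⁻¹ * n)⁻¹ := by group
    rw [h1, h, mul_one, mul_inv_cancel]
  have hjne : A j ≠ ⊥ := by
    intro h
    rw [h, Subgroup.mem_bot] at haj
    exact haj1 haj
  have hjone : AllDer (G := A j) (RR (A j)) := (hA j).resolve_left hcyc
  obtain ⟨n', hn', j', hj', -⟩ := exists_factor htf hfp hAfg hjne hjone hul hm'
  have hfin' : (At N (A j) (m⁻¹ * n)).index ≠ 0 := at_index hul (hAfg j) fun b hb =>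
    (Subgroup.mem_normalizer_iff.1 hm' b).1 (hul.1 (hfp.le j hb))
  have hback : (m⁻¹ * n) * ((m⁻¹ * n)⁻¹ * a * (m⁻¹ * n)) * (m⁻¹ * n)⁻¹ = a := by group
  have h1 := hj' _ haj (by rw [hback]; exact hfp.le i haA)
  rw [hback] at h1
  obtain ⟨hij, hn'i⟩ := hfp.mal hn' ha1 haA h1
  subst hij
  have hj2 : ∀ b ∈ A j, (m⁻¹ * n) * b * (m⁻¹ * n)⁻¹ ∈ N → (m⁻¹ * n) * b * (m⁻¹ * n)⁻¹ ∈ A i := by
    intro b hb hbN
    have h2 := hj' b hb hbN
    have h3 : (m⁻¹ * n) * b * (m⁻¹ * n)⁻¹ =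
        n' * (n'⁻¹ * ((m⁻¹ * n) * b * (m⁻¹ * n)⁻¹) * n') * n'⁻¹ := by group
    rw [h3]
    exact (A i).mul_mem ((A i).mul_mem hn'i h2) ((A i).inv_mem hn'i)
  refine ⟨n, hn, j, ?_, ?_⟩
  · have h2 : At N (A i) m ≤ (cc (m⁻¹ * n) (A j)).subgroupOf (A i) := by
      intro b hb
      rw [Subgroup.mem_subgroupOf, mem_cc, hconj1]
      exact hj b b.2 hb
    exact fun h3 => hfin (Nat.eq_zero_of_zero_dvd (by
      rw [← h3]
      exact Subgroup.index_dvd_of_le h2))
  · have h2 : At N (A j) (m⁻¹ * n) ≤ (cc (m⁻¹ * n)⁻¹ (A i)).subgroupOf (A j) := by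
      intro b hb
      rw [Subgroup.mem_subgroupOf, mem_cc, inv_inv]
      exact hj2 b b.2 hb
    have h3 : (cc (m⁻¹ * n)⁻¹ (A i)).relIndex (A j) ≠ 0 :=
      fun h3 => hfin' (Nat.eq_zero_of_zero_dvd (by
        rw [← h3]
        exact Subgroup.index_dvd_of_le h2))
    have h4 : (A i).relIndex (cc (m⁻¹ * n) (A j)) = (cc (m⁻¹ * n)⁻¹ (A i)).relIndex (A j) := by
      have h5 := Subgroup.relIndex_pointwise_smul (h := ConjAct.toConjAct (m⁻¹ * n)⁻¹)
        (A i) (cc (m⁻¹ * n) (A j))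
      rw [← h5]
      congr 1
      change cc (m⁻¹ * n)⁻¹ (cc (m⁻¹ * n) (A j)) = A j
      rw [← cc_mul, inv_mul_cancel]
      ext z
      rw [mem_cc, inv_one, one_mul, mul_one]
    rw [h4]
    exact h3

end

end Pool.Agent.J4H59.PG
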