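import Pool.Agent.J4H59.PE.S1
import Mathlib.GroupTheory.CoprodI

/-!
# Free products and derivations
-/

set_option autoImplicit false
set_option linter.unusedSectionVars false

open scoped Classical

namespace Pool.Agent.J4H59.PG

open Pool.Agent.Helper386.PD3 Pool.Agent.J4H59.PD Pool.Agent.J4H59.PE

noncomputable section

variable {P : Type} [Group P] {ι : Type} [Fintype ι]

/-- `P` is the free product of the subgroups `A i`. -/
def IsFree (A : ι → Subgroup P) : Prop :=
  ∃ (B : ι → Type) (_ : ∀ i, Group (B i)) (φ : ∀ i, B i →* P),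
    (∀ i, (φ i).range = A i) ∧ Function.Bijective (Monoid.CoprodI.lift φ)

/-- the basis elements -/
def ee (i : ι) : ι → RR P := Pi.single i 1

theorem ee_self (i : ι) : ee (P := P) i i = 1 := Pi.single_eq_same _ _

theorem ee_ne {i j : ι} (h : j ≠ i) : ee (P := P) i j = 0 := Pi.single_eq_of_ne h _

variable {A : ι → Subgroup P}

/-- derivations are determined by the factors -/
theorem der_ext (hA : IsFree A) {M : Type} [AddCommGroup M] [Module (RR P) M] {D D' : P → M}
    (hD : ∀ g h, D (g * h) = D g + gof g • D h) (hD' : ∀ g h, D' (g * h) = D' g + gof g • D' h)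
    (h : ∀ i, ∀ a ∈ A i, D a = D' a) (g : P) : D g = D' g := by
  obtain ⟨B, _, φ, hφ, -, hsurj⟩ := hA
  obtain ⟨v, rfl⟩ := hsurj g
  induction v using Monoid.CoprodI.induction_on with
  | one =>
    rw [map_one]
    have h1 : ∀ {E : P → M}, (∀ g h, E (g * h) = E g + gof g • E h) → E 1 = 0 := by
      intro E hE
      have h2 := hE 1 1
      rw [mul_one, gof_one, one_smul] at h2
      simpa using h2
    rw [h1 hD, h1 hD']
  | of i a =>
    rw [Monoid.CoprodI.lift_of]
    refine h i _ ?_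
    rw [← hφ]
    exact ⟨a, rfl⟩
  | mul v v' ih ih' => rw [map_mul, hD, hD', ih, ih']

/-- The universal derivation of a free product. -/
theorem exists_fder (hA : IsFree A) : ∃ δ : P → ι → RR P,
    (∀ g h, δ (g * h) = δ g + gof g • δ h) ∧ ∀ i, ∀ a ∈ A i, δ a = ee i - gof a • ee i := by
  obtain ⟨B, _, φ, hφ, hbij⟩ := hA
  let F : ∀ i, B i →* Equiv.Perm (ι → RR P) := fun i =>
    { toFun := fun a =>
        { toFun := fun x => gof (φ i a) • (x - ee i) + ee i
          invFun := fun x => gof (φ i a)⁻¹ • (x - ee i) + ee i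
          left_inv := fun x => by
            change gof (φ i a)⁻¹ • ((gof (φ i a) • (x - ee i) + ee i) - ee i) + ee i = x
            rw [add_sub_cancel_right, smul_smul, ← gof_mul, inv_mul_cancel, gof_one, one_smul,
              sub_add_cancel]
          right_inv := fun x => by
            change gof (φ i a) • ((gof (φ i a)⁻¹ • (x - ee i) + ee i) - ee i) + ee i = x
            rw [add_sub_cancel_right, smul_smul, ← gof_mul, mul_inv_cancel, gof_one, one_smul,
              sub_add_cancel] }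
      map_one' := by
        refine Equiv.ext fun x => ?_
        change gof (φ i 1) • (x - ee i) + ee i = x
        rw [map_one, gof_one, one_smul, sub_add_cancel]
      map_mul' := fun a b => by
        refine Equiv.ext fun x => ?_
        change gof (φ i (a * b)) • (x - ee i) + ee i =
          gof (φ i a) • ((gof (φ i b) • (x - ee i) + ee i) - ee i) + ee i
        rw [add_sub_cancel_right, smul_smul, ← gof_mul, map_mul] }
  let Φ : Monoid.CoprodI B →* Equiv.Perm (ι → RR P) := Monoid.CoprodI.lift F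
  let e : Monoid.CoprodI B ≃* P := MulEquiv.ofBijective _ hbij
  have he : ∀ i (a : B i), e (Monoid.CoprodI.of a) = φ i a := fun i a =>
    Monoid.CoprodI.lift_of (fi := φ) a
  have hΦ : ∀ v x, Φ v x = Φ v 0 + gof (e v) • x := by
    intro v
    induction v using Monoid.CoprodI.induction_on with
    | one =>
      intro x
      rw [map_one, map_one, gof_one, one_smul]
      change x = 0 + x
      rw [zero_add]
    | of i a =>
      intro x
      rw [he]
      have h1 : ∀ x, Φ (Monoid.CoprodI.of a) x = gof (φ i a) • (x - ee i) + ee i := by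
        intro x
        have h2 : Φ (Monoid.CoprodI.of a) = F i a := Monoid.CoprodI.lift_of (fi := F) a
        rw [h2]
        rfl
      rw [h1, h1, smul_sub, smul_sub, smul_zero]
      abel
    | mul v v' ih ih' =>
      intro x
      rw [map_mul, map_mul]
      change Φ v (Φ v' x) = Φ v (Φ v' 0) + _
      rw [ih (Φ v' x), ih (Φ v' 0), ih' x, smul_add, gof_mul, mul_smul]
      abel
  refine ⟨fun g => Φ (e.symm g) 0, fun g h => ?_, fun i a ha => ?_⟩
  · change Φ (e.symm (g * h)) 0 = Φ (e.symm g) 0 + gof g • Φ (e.symm h) 0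
    rw [map_mul, map_mul]
    change Φ (e.symm g) (Φ (e.symm h) 0) = Φ (e.symm g) 0 + gof g • Φ (e.symm h) 0
    rw [hΦ (e.symm g) (Φ (e.symm h) 0), MulEquiv.apply_symm_apply]
  · rw [← hφ] at ha
    obtain ⟨b, rfl⟩ := ha
    have h1 : e.symm (φ i b) = Monoid.CoprodI.of b := by
      rw [MulEquiv.symm_apply_eq, he]
    change Φ (e.symm (φ i b)) 0 = _
    rw [h1]
    have h2 : Φ (Monoid.CoprodI.of b) = F i b := Monoid.CoprodI.lift_of (fi := F) _
    rw [h2]
    change gof (φ i b) • ((0 : ι → RR P) - ee i) + ee i = _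
    rw [zero_sub, smul_neg]
    abel

variable {δ : P → ι → RR P}

theorem fder_sum (hA : IsFree A) (hδ : ∀ g h, δ (g * h) = δ g + gof g • δ h)
    (hδ' : ∀ i, ∀ a ∈ A i, δ a = ee i - gof a • ee i) (g : P) : ∑ i, δ g i = 1 - gof g := by
  refine der_ext hA (M := RR P) (D := fun g => ∑ i, δ g i) (D' := fun g => 1 - gof g)
    (fun g h => ?_) (fun g h => ?_) (fun i a ha => ?_) g
  · change ∑ i, δ (g * h) i = ∑ i, δ g i + gof g • ∑ i, δ h i
    rw [Finset.smul_sum, ← Finset.sum_add_distrib]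
    exact Finset.sum_congr rfl fun i _ => by rw [hδ]; rfl
  · change 1 - gof (g * h) = 1 - gof g + gof g • (1 - gof h)
    rw [gof_mul, smul_eq_mul, mul_sub, mul_one]
    abel
  · change ∑ j, δ a j = 1 - gof a
    rw [hδ' i a ha, Finset.sum_eq_single i]
    · change ee (P := P) i i - gof a • ee (P := P) i i = _
      rw [ee_self, smul_eq_mul, mul_one]
    · intro j _ hj
      change ee (P := P) i j - gof a • ee (P := P) i j = 0
      rw [ee_ne hj, smul_zero, sub_zero]
    · intro h
      exact absurd (Finset.mem_univ i) h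

theorem fder_ind (hA : IsFree A) (hδ : ∀ g h, δ (g * h) = δ g + gof g • δ h)
    (hδ' : ∀ i, ∀ a ∈ A i, δ a = ee i - gof a • ee i) (i : ι) (g : P) :
    δ g i • ind0 (A i) = 0 := by
  refine der_ext hA (M := Fn (A i)) (D := fun g => δ g i • ind0 (A i)) (D' := fun _ => 0)
    (fun g h => ?_) (fun g h => ?_) (fun j a ha => ?_) g
  · change δ (g * h) i • ind0 (A i) = δ g i • ind0 (A i) + gof g • δ h i • ind0 (A i)
    rw [hδ]
    change (δ g i + gof g * δ h i) • ind0 (A i) = _
    rw [add_smul, mul_smul]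
  · change (0 : Fn (A i)) = 0 + gof g • 0
    rw [smul_zero, add_zero]
  · change δ a i • ind0 (A i) = 0
    rw [hδ' j a ha]
    change (ee j i - gof a * ee j i) • ind0 (A i) = 0
    by_cases hij : i = j
    · subst hij
      rw [ee_self, mul_one, sub_smul, one_smul, sub_eq_zero]
      refine fn_ext fun y => ?_
      rw [gof_ind0]
      have h1 : (a : P ⧸ A i) = ((1 : P) : P ⧸ A i) := by
        rw [eq_comm, QuotientGroup.eq, inv_one, one_mul]
        exact ha
      rw [h1]
      rfl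
    · rw [ee_ne hij, mul_zero, sub_zero, zero_smul]

/-- the factors are malnormal -/
theorem malnormal (hA : IsFree A) (htf : ∀ (x : P) (k : ℤ), k ≠ 0 → x ^ k = 1 → x = 1)
    {g b : P} {i j : ι} (hb : b ≠ 1) (hbi : b ∈ A i) (hbj : g⁻¹ * b * g ∈ A j) :
    i = j ∧ g ∈ A i := by
  obtain ⟨δ, hδ, hδ'⟩ := exists_fder hA
  let z : ι → RR P := δ g + gof g • ee j - ee i
  have hz : gof b • z = z := by
    have h1 : δ (b * g) = ee i - gof b • ee i + gof b • δ g := by rw [hδ, hδ' i b hbi]
    have h2 : δ (g * (g⁻¹ * b * g)) = δ g + gof g • (ee j - gof (g⁻¹ * b * g) • ee j) := by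
      rw [hδ, hδ' j _ hbj]
    have h3 : g * (g⁻¹ * b * g) = b * g := by group
    rw [h3, h1, smul_sub, smul_smul, ← gof_mul, h3] at h2
    change gof b • (δ g + gof g • ee j - ee i) = δ g + gof g • ee j - ee i
    rw [smul_sub, smul_add, smul_smul, ← gof_mul]
    have h4 : gof b • δ g = δ g + (gof g • ee j - gof (b * g) • ee j) - ee i + gof b • ee i := by
      rw [← h2]
      abel
    rw [h4]
    abel
  have hord : ∀ k : ℤ, k ≠ 0 → b ^ k ≠ 1 := fun k hk h => hb (htf b k hk h)
  have hz0 : ∀ l, z l = 0 := by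
    intro l
    refine nzd_left hord ?_
    rw [sub_mul, one_mul]
    have h1 : gof b * z l = z l := congrFun hz l
    rw [h1, sub_self]
  have h1 : z i • ind0 (A i) = 0 := by rw [hz0, zero_smul]
  have h2 : z i = δ g i + gof g * ee j i - ee i i := rfl
  rw [h2, ee_self, sub_smul, add_smul, one_smul, fder_ind hA hδ hδ', zero_add, mul_smul] at h1
  by_cases hij : i = j
  · refine ⟨hij, ?_⟩
    subst hij
    rw [ee_self, one_smul, sub_eq_zero] at h1
    have h3 := congrFun h1 (g : P ⧸ A i)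
    rw [gof_ind0, if_pos rfl] at h3
    have h4 : (1 : ℤ) = if (g : P ⧸ A i) = ((1 : P) : P ⧸ A i) then 1 else 0 := h3
    by_contra hcon
    rw [if_neg] at h4
    · exact one_ne_zero h4
    · intro h5
      rw [eq_comm, QuotientGroup.eq, inv_one, one_mul] at h5
      exact hcon h5
  · exfalso
    rw [ee_ne hij, zero_smul, smul_zero, zero_sub, neg_eq_zero] at h1
    have h3 := congrFun h1 ((1 : P) : P ⧸ A i)
    have h4 : (if ((1 : P) : P ⧸ A i) = ((1 : P) : P ⧸ A i) then (1 : ℤ) else 0) = 0 := h3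
    rw [if_pos rfl] at h4
    exact one_ne_zero h4

/-- the sum of the values -/
def tot (B : Subgroup P) : (famF B).sub →+ ℤ := AddMonoidHom.mk' (fun m => ∑ᶠ y, (m : Fn B) y) (by
  intro m m'
  have hf : ∀ m : (famF B).sub, (Function.support fun y => (m : Fn B) y).Finite := fun m => m.2
  rw [← finsum_add_distrib (hf m) (hf m')]
  exact finsum_congr fun y => by rw [Submodule.coe_add, PD.add_apply])

theorem tot_qq (B : Subgroup P) (r : RR P) : tot B (qq B r) = eps r := by
  induction r using rr_ind with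
  | h1 g =>
    rw [eps_of]
    change ∑ᶠ y, (gof g • ind0 B) y = 1
    rw [finsum_eq_single _ (g : P ⧸ B)]
    · rw [gof_ind0, if_pos rfl]
    · intro y hy
      rw [gof_ind0, if_neg hy]
  | h2 a b ha hb => rw [map_add, map_add, map_add, ha, hb]
  | h3 a ha => rw [map_neg, map_neg, map_neg, ha]

/-- Derivations of a finitely generated group with one end with values in a free module over a
larger group are inner. -/
theorem inner_restrict {C : Type} [Group C] (hfg : Group.FG C) (hone : AllDer (G := C) (RR C))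
    (ψ : C →* P) (hψ : Function.Injective ψ) (D : C → RR P)
    (hD : ∀ a b, D (a * b) = D a + gof (ψ a) * D b) :
    ∃ c : RR P, ∀ a, D a = gof (ψ a) * c - c := by
  obtain ⟨S, hS⟩ := Group.fg_def.1 hfg
  let R := ψ.range
  let Dq : P ⧸ R → C → RR C := fun q a => toRR (fun c => (D a).coeff (ψ c * (rp q)⁻¹)) (by
    refine Set.Finite.of_finite_image (f := fun c => ψ c * (rp q)⁻¹)
      ((rr_supp_finite (D a)).subset ?_) ?_
    · rintro _ ⟨c, hc, rfl⟩
      exact hc
    · intro c _ c' _ h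
      exact hψ (mul_right_cancel h))
  have hDq : ∀ q a b, Dq q (a * b) = Dq q a + gof a • Dq q b := by
    intro q a b
    refine rr_ext fun c => ?_
    rw [rr_add_coeff, smul_eq_mul, coeff_gof_mul]
    change (D (a * b)).coeff (ψ c * (rp q)⁻¹) = (D a).coeff (ψ c * (rp q)⁻¹) +
      (D b).coeff (ψ (a⁻¹ * c) * (rp q)⁻¹)
    rw [hD, rr_add_coeff, coeff_gof_mul, map_mul ψ, map_inv ψ, mul_assoc]
  have hex : ∀ q, ∃ m : RR C, (∀ a, Dq q a = gof a • m - m) ∧ ((∀ a, Dq q a = 0) → m = 0) := by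
    intro q
    by_cases h0 : ∀ a, Dq q a = 0
    · refine ⟨0, fun a => ?_, fun _ => rfl⟩
      rw [h0, smul_zero, sub_zero]
    · obtain ⟨m, hm⟩ := hone (Dq q) (hDq q)
      exact ⟨m, hm, fun h => absurd h h0⟩
  choose m hm hm0 using hex
  have hfin : {q | m q ≠ 0}.Finite := by
    have h1 : (⋃ s ∈ S, (fun g : P => ((g⁻¹ : P) : P ⧸ R)) '' {g | (D s).coeff g ≠ 0}).Finite :=
      Set.Finite.biUnion S.finite_toSet fun s _ => (rr_supp_finite (D s)).image _
    refine h1.subset ?_
    intro q hq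
    by_contra hcon
    apply hq
    apply hm0
    have h2 : ∀ s ∈ S, Dq q s = 0 := by
      intro s hs
      refine rr_ext fun c => ?_
      change (D s).coeff (ψ c * (rp q)⁻¹) = 0
      by_contra h3
      apply hcon
      refine Set.mem_iUnion₂.2 ⟨s, hs, ψ c * (rp q)⁻¹, h3, ?_⟩
      change (((ψ c * (rp q)⁻¹)⁻¹ : P) : P ⧸ R) = q
      rw [mul_inv_rev, inv_inv]
      conv_rhs => rw [← mk_rp q]
      rw [eq_comm, QuotientGroup.eq, inv_mul_cancel_left]
      exact R.inv_mem ⟨c, rfl⟩
    intro a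
    have ha : a ∈ Subgroup.closure (S : Set C) := by rw [hS]; trivial
    induction ha using Subgroup.closure_induction with
    | mem a ha => exact h2 a ha
    | one =>
      have h3 := hDq q 1 1
      rw [mul_one, gof_one, one_smul] at h3
      simpa using h3
    | mul a b _ _ iha ihb => rw [hDq, iha, ihb, smul_zero, add_zero]
    | inv a _ iha =>
      have h3 := hDq q 1 1
      rw [mul_one, gof_one, one_smul] at h3
      have h4 := hDq q a⁻¹ a
      rw [inv_mul_cancel, iha, smul_zero, add_zero] at h4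
      rw [← h4]
      simpa using h3
  -- elements of the range
  have hκ : ∀ g : P, ∃ c : C, ψ c = g * rp ((g⁻¹ : P) : P ⧸ R) := by
    intro g
    have h1 : (rp ((g⁻¹ : P) : P ⧸ R))⁻¹ * g⁻¹ ∈ R := by
      rw [← QuotientGroup.eq, mk_rp]
    have h2 := R.inv_mem h1
    rw [mul_inv_rev, inv_inv, inv_inv] at h2
    exact h2
  choose κ hκ using hκ
  have hκ2 : ∀ g, ψ (κ g) * (rp ((g⁻¹ : P) : P ⧸ R))⁻¹ = g := by
    intro g
    rw [hκ, mul_inv_cancel_right]
  refine ⟨toRR (fun g => (m ((g⁻¹ : P) : P ⧸ R)).coeff (κ g)) ?_, fun a => ?_⟩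
  · have h1 : (⋃ q ∈ {q | m q ≠ 0}, (fun c : C => ψ c * (rp q)⁻¹) '' {c | (m q).coeff c ≠ 0}).Finite :=
      Set.Finite.biUnion hfin fun q _ => (rr_supp_finite (m q)).image _
    refine h1.subset ?_
    intro g hg
    have hg : (m ((g⁻¹ : P) : P ⧸ R)).coeff (κ g) ≠ 0 := hg
    refine Set.mem_iUnion₂.2 ⟨((g⁻¹ : P) : P ⧸ R), ?_, κ g, hg, hκ2 g⟩
    intro h0
    apply hg
    rw [h0]
    rfl
  · refine rr_ext fun g => ?_
    rw [rr_sub_coeff, coeff_gof_mul, toRR_coeff, toRR_coeff]
    have hq : (((ψ a)⁻¹ * g)⁻¹ : P) = g⁻¹ * ψ a := by group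
    have hq' : ((((ψ a)⁻¹ * g)⁻¹ : P) : P ⧸ R) = ((g⁻¹ : P) : P ⧸ R) := by
      rw [hq, eq_comm, QuotientGroup.eq, inv_inv, mul_inv_cancel_left]
      exact ⟨a, rfl⟩
    rw [hq']
    have hκa : κ ((ψ a)⁻¹ * g) = a⁻¹ * κ g := by
      apply hψ
      rw [hκ, hq', map_mul, map_inv, hκ, mul_assoc]
    rw [hκa]
    have h1 := congrArg (fun r : RR C => r.coeff (κ g)) (hm ((g⁻¹ : P) : P ⧸ R) a)
    simp only [rr_sub_coeff, smul_eq_mul, coeff_gof_mul] at h1
    rw [← h1]
    change _ = (D a).coeff (ψ (κ g) * (rp ((g⁻¹ : P) : P ⧸ R))⁻¹)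
    rw [hκ2]

/-- Subgroups with one end are conjugate into the factors. -/
theorem conj_factor (hA : IsFree A) (htf : ∀ (x : P) (k : ℤ), k ≠ 0 → x ^ k = 1 → x = 1)
    {C : Type} [Group C] (hfg : Group.FG C) (hone : AllDer (G := C) (RR C)) (hC : ∃ c : C, c ≠ 1)
    (ψ : C →* P) (hψ : Function.Injective ψ) : ∃ (g : P) (l : ι), ∀ c, g⁻¹ * ψ c * g ∈ A l := by
  obtain ⟨δ, hδ, hδ'⟩ := exists_fder hA
  have hex : ∀ l, ∃ c : RR P, ∀ a, δ (ψ a) l = gof (ψ a) * c - c := fun l =>
    inner_restrict hfg hone ψ hψ (fun a => δ (ψ a) l) fun a b => by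
      rw [map_mul, hδ]
      rfl
  choose c hc using hex
  obtain ⟨a0, ha0⟩ := hC
  have hψ0 : ψ a0 ≠ 1 := fun h => ha0 (hψ (h.trans (map_one ψ).symm))
  have hs : ∑ l, c l = -1 := by
    have h1 : (gof (ψ a0) - 1) * (∑ l, c l + 1) = 0 := by
      have h2 := fder_sum hA hδ hδ' (ψ a0)
      rw [Finset.sum_congr rfl fun l _ => hc l a0, Finset.sum_sub_distrib, ← Finset.mul_sum] at h2
      rw [mul_add, mul_one, sub_mul, one_mul, h2]
      abel
    have h2 := nzd_left (fun k hk h => hψ0 (htf _ k hk h)) h1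
    exact eq_neg_of_add_eq_zero_left h2
  obtain ⟨l, -, hl⟩ : ∃ l ∈ Finset.univ, eps (c l) ≠ 0 := by
    apply Finset.exists_ne_zero_of_sum_ne_zero
    rw [← map_sum, hs, map_neg, map_one]
    norm_num
  let f : (famF (A l)).sub := qq (A l) (c l)
  have hf0 : f ≠ 0 := by
    intro h0
    apply hl
    rw [← tot_qq (A l), show qq (A l) (c l) = 0 from h0, map_zero]
  have hfa : ∀ a, gof (ψ a) • f = f := by
    intro a
    apply Subtype.ext
    have h1 := fder_ind hA hδ hδ' l (ψ a)
    rw [hc, sub_smul, mul_smul, sub_eq_zero] at h1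
    exact h1
  obtain ⟨y, hy⟩ : ∃ y, (f : Fn (A l)) y ≠ 0 := by
    by_contra hcon
    push Not at hcon
    exact hf0 (Subtype.ext (fn_ext hcon))
  have horb : ∀ a, (f : Fn (A l)) (ψ a • y) ≠ 0 := by
    intro a
    have h1 := congrArg (fun m : (famF (A l)).sub => (m : Fn (A l)) (ψ a • y)) (hfa a)
    have h2 : (gof (ψ a) • (f : Fn (A l))) (ψ a • y) = (f : Fn (A l)) (ψ a • y) := h1
    rw [PD.gof_apply, inv_smul_smul] at h2
    rwa [← h2]
  obtain ⟨g, rfl⟩ := QuotientGroup.mk_surjective y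
  refine ⟨g, l, fun a => ?_⟩
  by_cases ha : a = 1
  · rw [ha, map_one, mul_one, inv_mul_cancel]
    exact (A l).one_mem
  have hψa : ψ a ≠ 1 := fun h => ha (hψ (h.trans (map_one ψ).symm))
  have hfin : (supp (f : Fn (A l))).Finite := f.2
  -- a power fixes the point
  obtain ⟨i, j, hij, hij'⟩ : ∃ i j : ℕ, i < j ∧
      ψ a ^ i • (g : P ⧸ A l) = ψ a ^ j • (g : P ⧸ A l) := by
    have hmaps : ∀ n : ℕ, ψ a ^ n • (g : P ⧸ A l) ∈ supp (f : Fn (A l)) := by
      intro n
      have h1 := horb (a ^ n)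
      rw [map_pow] at h1
      exact h1
    have : Finite (supp (f : Fn (A l))) := hfin.to_subtype
    obtain ⟨i, j, hne, hij⟩ := Finite.exists_ne_map_eq_of_infinite
      (fun n : ℕ => (⟨ψ a ^ n • (g : P ⧸ A l), hmaps n⟩ : supp (f : Fn (A l))))
    have hij := congrArg Subtype.val hij
    rcases lt_or_gt_of_ne hne with h | h
    · exact ⟨i, j, h, hij⟩
    · exact ⟨j, i, h, hij.symm⟩
  have hpow : g⁻¹ * ψ a ^ (j - i) * g ∈ A l := by
    have h1 : ψ a ^ j = ψ a ^ i * ψ a ^ (j - i) := by rw [← pow_add, Nat.add_sub_cancel' hij.le]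
    rw [h1, mul_smul, smul_left_cancel_iff] at hij'
    have h2 : (g : P ⧸ A l) = ((ψ a ^ (j - i) * g : P) : P ⧸ A l) := hij'
    rw [QuotientGroup.eq, ← mul_assoc] at h2
    exact h2
  have hconj : g⁻¹ * ψ a ^ (j - i) * g = (g⁻¹ * ψ a * g) ^ (j - i) := by
    have h1 := conj_pow (a := g⁻¹) (b := ψ a) (i := j - i)
    rw [inv_inv] at h1
    exact h1.symm
  rw [hconj] at hpow
  have hne : (g⁻¹ * ψ a * g) ^ (j - i) ≠ 1 := by
    intro h0
    rw [← hconj] at h0
    apply hψa
    refine htf (ψ a) ((j - i : ℕ) : ℤ) (by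
      have : 0 < j - i := by omega
      exact_mod_cast this.ne') ?_
    rw [zpow_natCast]
    have h1 : ψ a ^ (j - i) = g * (g⁻¹ * ψ a ^ (j - i) * g) * g⁻¹ := by group
    rw [h1, h0, mul_one, mul_inv_cancel]
  have h1 : (g⁻¹ * ψ a * g)⁻¹ * (g⁻¹ * ψ a * g) ^ (j - i) * (g⁻¹ * ψ a * g) =
      (g⁻¹ * ψ a * g) ^ (j - i) := by
    rw [mul_assoc, ← pow_succ, pow_succ', inv_mul_cancel_left]
  have h2 := malnormal hA htf (g := g⁻¹ * ψ a * g) (b := (g⁻¹ * ψ a * g) ^ (j - i)) (i := l)
    (j := l) hne hpow (by rw [h1]; exact hpow)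
  exact h2.2

end

end Pool.Agent.J4H59.PG
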