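import Pool.Agent.J4H59.PE.Trans
import Pool.Agent.J4H59.PG.Free

/-!
# Groups with one end: subgroups of finite index, cyclic groups
-/

set_option autoImplicit false
set_option linter.unusedSectionVars false

open scoped Classical

namespace Pool.Agent.J4H59.PG

open Pool.Agent.Helper386.PD3 Pool.Agent.J4H59.PD Pool.Agent.J4H59.PE

noncomputable section

/-- Subgroups of finite index of groups with one end. -/
theorem allDer_fi {C : Type} [Group C] (hC : AllDer (G := C) (RR C)) (D : Subgroup C)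
    (hD : D.index ≠ 0) : AllDer (G := D) (RR D) := by
  intro δ hδ
  have hfi : D.FiniteIndex := ⟨hD⟩
  have hfin : Finite (C ⧸ D) := inferInstance
  obtain ⟨κ, hκd, hκ⟩ : ∃ κ : C → C ⧸ D → RR C,
      (∀ g y, κ g y = gof (rp' y) * jj D (δ (al' g y))) ∧
      ∀ g h y, κ (g * h) y = κ g y + gof g * κ h (g⁻¹ • y) := by
    refine ⟨fun g y => gof (rp' y) * jj D (δ (al' g y)), fun g y => rfl, fun g h y => ?_⟩
    change gof (rp' y) * jj D (δ (al' (g * h) y)) = gof (rp' y) * jj D (δ (al' g y)) +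
      gof g * (gof (rp' (g⁻¹ • y)) * jj D (δ (al' h (g⁻¹ • y))))
    have h1 : gof (rp' y) * gof (al' g y : C) = gof g * gof (rp' (g⁻¹ • y)) := by
      rw [← gof_mul, ← gof_mul, al'_coe, mul_inv_cancel_left]
    rw [al'_mul, hδ, map_add, smul_eq_mul, map_mul, jj_of, mul_add, ← mul_assoc, h1, mul_assoc]
  obtain ⟨F, hF⟩ : ∃ F : C → RR C, ∀ (g x : C), (F g).coeff x = (κ g (x : C ⧸ D)).coeff x := by
    refine ⟨fun g => toRR (fun x => (κ g (x : C ⧸ D)).coeff x) ?_, fun g x => rfl⟩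
    have h1 : (⋃ y : C ⧸ D, {x | (κ g y).coeff x ≠ 0}).Finite :=
      Set.finite_iUnion fun y => rr_supp_finite _
    exact h1.subset fun x hx => Set.mem_iUnion.2 ⟨(x : C ⧸ D), hx⟩
  obtain ⟨μ, hμ⟩ := hC F (by
    intro g h
    refine rr_ext fun x => ?_
    have h1 : (gof g • F h).coeff x = (F h).coeff (g⁻¹ * x) := coeff_gof_mul g (F h) x
    have h2 : (gof g * κ h (g⁻¹ • (x : C ⧸ D))).coeff x = (κ h (g⁻¹ • (x : C ⧸ D))).coeff (g⁻¹ * x) :=
      coeff_gof_mul g _ x
    have h3 : g⁻¹ • (x : C ⧸ D) = ((g⁻¹ * x : C) : C ⧸ D) := rfl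
    rw [rr_add_coeff, h1, hF, hF, hF, hκ, rr_add_coeff, h2, h3])
  have hμ' : ∀ (g x : C), (κ g (x : C ⧸ D)).coeff x = μ.coeff (g⁻¹ * x) - μ.coeff x := by
    intro g x
    rw [← hF, hμ, rr_sub_coeff]
    congr 1
    exact coeff_gof_mul g μ x
  have hbase : ∀ (g x : D), (κ (g : C) ((x : C) : C ⧸ D)).coeff (x : C) = (δ g).coeff x := by
    intro g x
    have hx : ((x : C) : C ⧸ D) = ((1 : C) : C ⧸ D) := by
      rw [eq_comm, QuotientGroup.eq, inv_one, one_mul]
      exact x.2
    have hal : al' (g : C) ((1 : C) : C ⧸ D) = g := by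
      apply Subtype.ext
      have h2 : (g : C)⁻¹ • ((1 : C) : C ⧸ D) = ((1 : C) : C ⧸ D) := by
        change (((g : C)⁻¹ * 1 : C) : C ⧸ D) = _
        rw [QuotientGroup.eq]
        simp
      rw [al'_coe, h2, rp'_one, inv_one, one_mul, mul_one]
    rw [hx, hκd, rp'_one, hal, gof_one, one_mul, coeff_jj, dif_pos x.2]
  have hfin2 : {d : D | μ.coeff (d : C) ≠ 0}.Finite := by
    refine Set.Finite.of_finite_image (f := fun d : D => (d : C))
      ((rr_supp_finite μ).subset ?_) Subtype.val_injective.injOn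
    rintro _ ⟨d, hd, rfl⟩
    exact hd
  refine ⟨toRR (fun d : D => μ.coeff (d : C)) hfin2, fun g => rr_ext fun x => ?_⟩
  have h1 : (gof g • toRR (fun d : D => μ.coeff (d : C)) hfin2).coeff x =
      μ.coeff ((g⁻¹ * x : D) : C) := coeff_gof_mul g _ x
  rw [rr_sub_coeff, h1, toRR_coeff, Subgroup.coe_mul, Subgroup.coe_inv, ← hμ', hbase]

/-- infinite cyclic groups have two ends -/
theorem not_allDer_cyc {C : Type} [Group C] (z : C) (hz : ∀ c : C, ∃ k : ℤ, z ^ k = c)
    (hinf : ∀ k : ℤ, k ≠ 0 → z ^ k ≠ 1) : ¬ AllDer (G := C) (RR C) := by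
  intro h
  choose lg hlg using hz
  have hinj : ∀ k l : ℤ, z ^ k = z ^ l → k = l := by
    intro k l hkl
    exact infinite_order hinf 1 (by simpa using hkl)
  have hlz : ∀ k, lg (z ^ k) = k := fun k => hinj _ _ (hlg _)
  have hmul : ∀ g x, lg (g⁻¹ * x) = lg x - lg g := by
    intro g x
    apply hinj
    rw [hlg, zpow_sub, hlg, hlg]
    have h1 : Commute g⁻¹ x := by
      rw [← hlg g, ← hlg x, ← zpow_neg]
      exact Commute.zpow_zpow_self z _ _
    exact h1.eq
  let f : C → ℤ := fun c => if 0 ≤ lg c then 1 else 0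
  obtain ⟨c, hc⟩ := almost_const h f (fun g => by
    have h1 : ((fun k : ℤ => z ^ k) '' Set.Icc (-|lg g|) |lg g|).Finite :=
      (Set.finite_Icc _ _).image _
    refine h1.subset ?_
    intro x hx
    refine ⟨lg x, ?_, hlg x⟩
    by_contra hcon
    apply hx
    change (if 0 ≤ lg (g⁻¹ * x) then (1 : ℤ) else 0) = if 0 ≤ lg x then 1 else 0
    rw [hmul]
    rw [Set.mem_Icc, not_and_or, not_le, not_le] at hcon
    have h2 := neg_abs_le (lg g)
    have h3 := le_abs_self (lg g)
    rcases hcon with h4 | h4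
    · rw [if_neg (by linarith), if_neg (by
        have := abs_nonneg (lg g)
        linarith)]
    · rw [if_pos (by linarith), if_pos (by
        have := abs_nonneg (lg g)
        linarith)])
  have hpos : (Set.range fun k : ℕ => z ^ (k : ℤ)).Infinite := by
    refine Set.infinite_range_of_injective fun k l hkl => ?_
    have := hinj _ _ hkl
    exact_mod_cast this
  have hneg : (Set.range fun k : ℕ => z ^ (-(k : ℤ) - 1)).Infinite := by
    refine Set.infinite_range_of_injective fun k l hkl => ?_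
    have := hinj _ _ hkl
    omega
  by_cases h1 : c = 1
  · refine hneg (hc.subset ?_)
    rintro _ ⟨k, rfl⟩
    change f (z ^ (-(k : ℤ) - 1)) ≠ c
    change (if 0 ≤ lg (z ^ (-(k : ℤ) - 1)) then (1 : ℤ) else 0) ≠ c
    rw [hlz, if_neg (by omega), h1]
    exact zero_ne_one
  · refine hpos (hc.subset ?_)
    rintro _ ⟨k, rfl⟩
    change (if 0 ≤ lg (z ^ (k : ℤ)) then (1 : ℤ) else 0) ≠ c
    rw [hlz, if_pos (by omega)]
    exact Ne.symm h1

/-- groups with one end are not cyclic -/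
theorem not_cyc {C : Type} [Group C] (h : AllDer (G := C) (RR C))
    (htf : ∀ (x : C) (k : ℤ), k ≠ 0 → x ^ k = 1 → x = 1) (hC : ∃ c : C, c ≠ 1)
    (ψ : C →* Multiplicative ℤ) (hψ : Function.Injective ψ) : False := by
  have hcyc : IsCyclic C := isCyclic_of_injective ψ hψ
  obtain ⟨z, hz⟩ := hcyc.exists_generator
  refine not_allDer_cyc z (fun c => hz c) (fun k hk hk1 => ?_) h
  obtain ⟨c, hc⟩ := hC
  apply hc
  obtain ⟨l, hl⟩ := hz c
  have hl : z ^ l = c := hl
  rw [← hl, htf z k hk hk1, one_zpow]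

end

end Pool.Agent.J4H59.PG
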